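import Mathlib

/-!
# Every `3 × 3` matrix over the field with two elements commutes with a nontrivial unit
-/

namespace Q1.Centralizer2

/-- 3x3 matrices over the two element field as tuples -/
structure M9 where
  (a b c d e f g h i : ZMod 2)
deriving DecidableEq

/-- product -/
def mul (m n : M9) : M9 :=
  ⟨m.a * n.a + m.b * n.d + m.c * n.g, m.a * n.b + m.b * n.e + m.c * n.h,
    m.a * n.c + m.b * n.f + m.c * n.i,
   m.d * n.a + m.e * n.d + m.f * n.g, m.d * n.b + m.e * n.e + m.f * n.h,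
    m.d * n.c + m.e * n.f + m.f * n.i,
   m.g * n.a + m.h * n.d + m.i * n.g, m.g * n.b + m.h * n.e + m.i * n.h,
    m.g * n.c + m.h * n.f + m.i * n.i⟩

/-- determinant -/
def det (m : M9) : ZMod 2 :=
  m.a * m.e * m.i - m.a * m.f * m.h - m.b * m.d * m.i + m.b * m.f * m.g +
    m.c * m.d * m.h - m.c * m.e * m.g

/-- sum -/
def add (m n : M9) : M9 :=
  ⟨m.a + n.a, m.b + n.b, m.c + n.c, m.d + n.d, m.e + n.e, m.f + n.f, m.g + n.g, m.h + n.h,
    m.i + n.i⟩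

/-- the identity -/
def one : M9 := ⟨1, 0, 0, 0, 1, 0, 0, 0, 1⟩

/-- the test -/
def good (m h : M9) : Bool :=
  decide (det h = 1) && (decide (mul h m = mul m h) && !(decide (h = one)))

/-- candidates for the commuting unit -/
def cands (m : M9) : List M9 :=
  [m, add one m, add (add one m) (mul m m),
    ⟨0, 0, 1, 0, 1, 0, 1, 0, 0⟩, ⟨0, 0, 1, 1, 1, 1, 1, 0, 0⟩, ⟨0, 1, 0, 1, 0, 0, 1, 1, 1⟩,
    ⟨1, 0, 0, 1, 1, 1, 0, 0, 1⟩, ⟨1, 1, 1, 0, 0, 1, 0, 1, 0⟩, ⟨0, 1, 0, 1, 0, 0, 0, 0, 1⟩,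
    ⟨0, 1, 1, 0, 1, 0, 1, 1, 0⟩, ⟨1, 0, 0, 0, 0, 1, 0, 1, 0⟩, ⟨0, 1, 1, 1, 0, 1, 0, 0, 1⟩,
    ⟨1, 0, 0, 0, 1, 0, 1, 1, 1⟩]

theorem check : ∀ a b c d e f g h i : ZMod 2,
    (cands ⟨a, b, c, d, e, f, g, h, i⟩).any (good ⟨a, b, c, d, e, f, g, h, i⟩) = true := by
  decide +kernel

/-- to matrices -/
def toMat (m : M9) : Matrix (Fin 3) (Fin 3) (ZMod 2) :=
  !![m.a, m.b, m.c; m.d, m.e, m.f; m.g, m.h, m.i]

lemma toMat_mul (m n : M9) : toMat (mul m n) = toMat m * toMat n := by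
  simp only [toMat, mul]
  ext i j
  fin_cases i <;> fin_cases j <;> simp [Matrix.mul_apply, Fin.sum_univ_three]

lemma toMat_det (m : M9) : (toMat m).det = det m := by
  rw [Matrix.det_fin_three]
  simp [toMat, det]

lemma toMat_one : toMat one = 1 := by
  ext i j
  fin_cases i <;> fin_cases j <;> rfl

lemma toMat_inj {m n : M9} (h : toMat m = toMat n) : m = n := by
  have e : ∀ i j, toMat m i j = toMat n i j := fun i j => by rw [h]
  cases m
  cases n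
  simp only [M9.mk.injEq]
  exact ⟨e 0 0, e 0 1, e 0 2, e 1 0, e 1 1, e 1 2, e 2 0, e 2 1, e 2 2⟩

/-- Every matrix commutes with a unit different from one. -/
theorem exists_comm (β : Matrix (Fin 3) (Fin 3) (ZMod 2)) :
    ∃ h : Matrix (Fin 3) (Fin 3) (ZMod 2), h.det = 1 ∧ h * β = β * h ∧ h ≠ 1 := by
  let m : M9 := ⟨β 0 0, β 0 1, β 0 2, β 1 0, β 1 1, β 1 2, β 2 0, β 2 1, β 2 2⟩
  have hm : toMat m = β := by
    ext i j
    fin_cases i <;> fin_cases j <;> rfl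
  have h1 := check m.a m.b m.c m.d m.e m.f m.g m.h m.i
  rw [List.any_eq_true] at h1
  obtain ⟨h, -, hh⟩ := h1
  change good m h = true at hh
  simp only [good, Bool.and_eq_true, decide_eq_true_eq, Bool.not_eq_true', decide_eq_false_iff_not]
    at hh
  refine ⟨toMat h, by rw [toMat_det, hh.1], ?_, ?_⟩
  · rw [← hm, ← toMat_mul, ← toMat_mul, hh.2.1]
  · intro hc
    rw [← toMat_one] at hc
    exact hh.2.2 (toMat_inj hc)

end Q1.Centralizer2
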