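import Mathlib

/-!
# Monomial representations of finite groups

Let `K ≤ H ≤ G` with `K` normal in the finite group `G`, and let `χ` be a character of `H` such
that no `g ∉ H` fixes the restriction of `χ` to `K`.  Then the representation of `G` induced by
`χ` is irreducible of dimension `[G : H]`.
-/

namespace Q1.Monomial

open Module

variable {G : Type} [Group G] (H K : Subgroup G)

open Classical in
/-- extension by zero -/
noncomputable def ext0 {H : Subgroup G} (χ : H →* ℂˣ) (x : G) : ℂ :=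
  if h : x ∈ H then (χ ⟨x, h⟩ : ℂ) else 0

variable {H K} (χ : H →* ℂˣ)

lemma ext0_mem {x : G} (h : x ∈ H) : ext0 χ x = (χ ⟨x, h⟩ : ℂ) := dif_pos h

lemma ext0_not {x : G} (h : x ∉ H) : ext0 χ x = 0 := dif_neg h

lemma ext0_mul_right {x y : G} (hy : y ∈ H) : ext0 χ (x * y) = ext0 χ x * ext0 χ y := by
  by_cases hx : x ∈ H
  · rw [ext0_mem χ hx, ext0_mem χ hy, ext0_mem χ (H.mul_mem hx hy), ← Units.val_mul, ← map_mul]
    rfl
  · rw [ext0_not χ hx, ext0_not χ (fun h => hx ((H.mul_mem_cancel_right hy).1 h)), zero_mul]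

lemma ext0_mul_left {x y : G} (hx : x ∈ H) : ext0 χ (x * y) = ext0 χ x * ext0 χ y := by
  by_cases hy : y ∈ H
  · exact ext0_mul_right χ hy
  · rw [ext0_not χ hy, ext0_not χ (fun h => hy ((H.mul_mem_cancel_left hx).1 h)), mul_zero]

lemma ext0_one : ext0 χ 1 = 1 := by
  rw [ext0_mem χ H.one_mem]
  have : (⟨1, H.one_mem⟩ : H) = 1 := rfl
  rw [this, map_one, Units.val_one]

lemma ext0_inv_mul {x : G} (hx : x ∈ H) : ext0 χ x⁻¹ * ext0 χ x = 1 := by
  rw [← ext0_mul_right χ hx, inv_mul_cancel, ext0_one]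

lemma ext0_mul_inv {x : G} (hx : x ∈ H) : ext0 χ x * ext0 χ x⁻¹ = 1 := by
  rw [mul_comm, ext0_inv_mul χ hx]

/-- The space of the induced representation. -/
def space : Submodule ℂ (G → ℂ) where
  carrier := {f | ∀ x, ∀ h ∈ H, f (x * h) = ext0 χ h⁻¹ * f x}
  zero_mem' := by intro x h _; simp
  add_mem' := by
    intro f g hf hg x h hh
    simp only [Pi.add_apply, hf x h hh, hg x h hh]; ring
  smul_mem' := by
    intro c f hf x h hh
    simp only [Pi.smul_apply, smul_eq_mul, hf x h hh]; ring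

/-- Left translation on all functions. -/
def transl (g : G) : (G → ℂ) →ₗ[ℂ] (G → ℂ) where
  toFun f x := f (g⁻¹ * x)
  map_add' _ _ := rfl
  map_smul' _ _ := rfl

lemma transl_apply (g : G) (f : G → ℂ) (x : G) : transl g f x = f (g⁻¹ * x) := rfl

lemma transl_mem (g : G) {f : G → ℂ} (hf : f ∈ space χ) : transl g f ∈ space χ := by
  intro x h hh
  rw [transl_apply, transl_apply, ← mul_assoc]
  exact hf _ h hh

/-- The induced representation. -/
def rep : Representation ℂ G (space χ) where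
  toFun g := (transl g).restrict (fun f hf => transl_mem χ g hf)
  map_one' := by
    ext f x
    simp [transl_apply]
  map_mul' a b := by
    ext f x
    simp [transl_apply, mul_assoc]

lemma rep_apply (g : G) (f : space χ) (x : G) :
    ((rep χ g f : space χ) : G → ℂ) x = (f : G → ℂ) (g⁻¹ * x) := rfl

/-- The basic functions. -/
noncomputable def basic (c : G) : space χ :=
  ⟨fun x => ext0 χ (x⁻¹ * c), by
    intro x h hh
    simp only [mul_inv_rev, mul_assoc]
    exact ext0_mul_left χ (H.inv_mem hh)⟩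

lemma basic_apply (c x : G) : (basic χ c : G → ℂ) x = ext0 χ (x⁻¹ * c) := rfl

lemma rep_basic (g c : G) : rep χ g (basic χ c) = basic χ (g * c) := by
  apply Subtype.ext
  funext x
  rw [rep_apply, basic_apply, basic_apply]
  congr 1
  group

/-- Every function in the space is a combination of basic functions. -/
lemma eq_sum (f : space χ) [Fintype G] :
    (Nat.card H : ℂ) • f = ∑ c : G, ((f : G → ℂ) c) • basic χ c := by
  classical
  apply Subtype.ext
  funext x
  have : ((∑ c : G, ((f : G → ℂ) c) • basic χ c : space χ) : G → ℂ) x =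
      ∑ c : G, (f : G → ℂ) c * ext0 χ (x⁻¹ * c) := by
    rw [Submodule.coe_sum, Finset.sum_apply]
    rfl
  rw [this, ← Equiv.sum_comp (Equiv.mulLeft x)]
  have h2 : ∀ y : G, (f : G → ℂ) ((Equiv.mulLeft x) y) * ext0 χ (x⁻¹ * (Equiv.mulLeft x) y) =
      if y ∈ H then (f : G → ℂ) x else 0 := by
    intro y
    simp only [Equiv.coe_mulLeft, inv_mul_cancel_left]
    split_ifs with hy
    · rw [f.2 x y hy, mul_right_comm, ext0_inv_mul χ hy, one_mul]
    · rw [ext0_not χ hy, mul_zero]
  rw [Finset.sum_congr rfl fun y _ => h2 y, Finset.sum_ite, Finset.sum_const_zero, add_zero,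
    Finset.sum_const]
  have h3 : (Finset.univ.filter (fun y => y ∈ H)).card = Nat.card H := by
    rw [Nat.card_eq_fintype_card, Fintype.card_subtype]
  rw [h3]
  simp

/-- Irreducibility. -/
theorem irreducible [Finite G] (hK : K.Normal) (hKH : K ≤ H)
    (hsep : ∀ g : G, g ∉ H → ∃ k ∈ K, ext0 χ (g⁻¹ * k * g) ≠ ext0 χ k)
    (W : Submodule ℂ (space χ)) (hW : ∀ g v, v ∈ W → rep χ g v ∈ W) : W = ⊥ ∨ W = ⊤ := by
  classical
  have := Fintype.ofFinite G
  have := Fintype.ofFinite K
  by_cases hbot : W = ⊥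
  · exact Or.inl hbot
  right
  obtain ⟨f, hf, hf0⟩ := (Submodule.ne_bot_iff W).1 hbot
  obtain ⟨c, hc⟩ : ∃ c, (f : G → ℂ) c ≠ 0 := by
    by_contra h
    push Not at h
    exact hf0 (Subtype.ext (funext h))
  have hKm : ∀ x k : G, k ∈ K → x⁻¹ * k * x ∈ K := by
    intro x k hk
    have := hK.conj_mem k hk x⁻¹
    simpa using this
  -- K acts diagonally
  have hdiag : ∀ (k : G), k ∈ K → ∀ x, ((rep χ k f : space χ) : G → ℂ) x =
      ext0 χ (x⁻¹ * k * x) * (f : G → ℂ) x := by
    intro k hk x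
    rw [rep_apply]
    have e : k⁻¹ * x = x * (x⁻¹ * k⁻¹ * x) := by group
    rw [e, f.2 x _ (hKH (hKm x _ (K.inv_mem hk)))]
    congr 2
    group
  -- the projection
  have hproj : ∀ x : G, ∑ k : K, ext0 χ (c⁻¹ * (k : G)⁻¹ * c) * ext0 χ (x⁻¹ * (k : G) * x) =
      if x⁻¹ * c ∈ H then (Fintype.card K : ℂ) else 0 := by
    intro x
    let φ : K →* ℂ :=
      { toFun := fun k => ext0 χ (c⁻¹ * (k : G)⁻¹ * c) * ext0 χ (x⁻¹ * (k : G) * x)
        map_one' := by simp [ext0_one]
        map_mul' := by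
          intro a b
          have e1 : c⁻¹ * ((a * b : K) : G)⁻¹ * c =
              (c⁻¹ * (b : G)⁻¹ * c) * (c⁻¹ * (a : G)⁻¹ * c) := by
            rw [Subgroup.coe_mul]; group
          have e2 : x⁻¹ * ((a * b : K) : G) * x = (x⁻¹ * (a : G) * x) * (x⁻¹ * (b : G) * x) := by
            rw [Subgroup.coe_mul]; group
          rw [e1, e2, ext0_mul_right χ (hKH (hKm c _ (K.inv_mem a.2))),
            ext0_mul_right χ (hKH (hKm x _ b.2))]
          ring }
    change ∑ k : K, φ k = _
    by_cases hx : x⁻¹ * c ∈ H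
    · rw [if_pos hx]
      have h1 : ∀ k : K, φ k = 1 := by
        intro k
        change ext0 χ (c⁻¹ * (k : G)⁻¹ * c) * ext0 χ (x⁻¹ * (k : G) * x) = 1
        have e : x⁻¹ * (k : G) * x = (x⁻¹ * c) * ((c⁻¹ * (k : G) * c) * (x⁻¹ * c)⁻¹) := by group
        rw [e, ext0_mul_left χ hx, ext0_mul_left χ (hKH (hKm c _ k.2))]
        have e2 : c⁻¹ * (k : G)⁻¹ * c = (c⁻¹ * (k : G) * c)⁻¹ := by group
        rw [e2]
        have h3 := ext0_inv_mul χ (hKH (hKm c _ k.2))
        have h4 := ext0_mul_inv χ hx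
        linear_combination (ext0 χ (x⁻¹ * c) * ext0 χ (x⁻¹ * c)⁻¹) * h3 + h4
      rw [Finset.sum_congr rfl fun k _ => h1 k]
      simp
    · rw [if_neg hx]
      apply sum_hom_units_eq_zero
      intro h1
      have hx' : c⁻¹ * x ∉ H := by
        intro h
        apply hx
        have := H.inv_mem h
        simpa using this
      obtain ⟨k, hk, hne⟩ := hsep _ hx'
      have hk' : c * k * c⁻¹ ∈ K := hK.conj_mem k hk c
      have h2 : φ ⟨c * k * c⁻¹, hk'⟩ = 1 := by rw [h1]; rfl
      change ext0 χ (c⁻¹ * (c * k * c⁻¹)⁻¹ * c) * ext0 χ (x⁻¹ * (c * k * c⁻¹) * x) = 1 at h2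
      have e1 : c⁻¹ * (c * k * c⁻¹)⁻¹ * c = k⁻¹ := by group
      have e2 : x⁻¹ * (c * k * c⁻¹) * x = (c⁻¹ * x)⁻¹ * k * (c⁻¹ * x) := by group
      rw [e1, e2] at h2
      apply hne
      have h3 := ext0_mul_inv χ (hKH hk)
      have h4 : ext0 χ k * (ext0 χ k⁻¹ * ext0 χ ((c⁻¹ * x)⁻¹ * k * (c⁻¹ * x))) = ext0 χ k := by
        rw [h2, mul_one]
      rw [← mul_assoc, h3, one_mul] at h4
      exact h4
  have hbc : basic χ c ∈ W := by
    have h1 : ∑ k : K, ext0 χ (c⁻¹ * (k : G)⁻¹ * c) • rep χ (k : G) f ∈ W :=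
      Submodule.sum_mem _ fun k _ => W.smul_mem _ (hW _ _ hf)
    have h2 : ∑ k : K, ext0 χ (c⁻¹ * (k : G)⁻¹ * c) • rep χ (k : G) f =
        ((Fintype.card K : ℂ) * (f : G → ℂ) c) • basic χ c := by
      apply Subtype.ext
      funext x
      have e1 : ((∑ k : K, ext0 χ (c⁻¹ * (k : G)⁻¹ * c) • rep χ (k : G) f : space χ) : G → ℂ) x =
          ∑ k : K, ext0 χ (c⁻¹ * (k : G)⁻¹ * c) *
            (ext0 χ (x⁻¹ * (k : G) * x) * (f : G → ℂ) x) := by
        rw [Submodule.coe_sum, Finset.sum_apply]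
        refine Finset.sum_congr rfl fun k _ => ?_
        rw [← hdiag k k.2 x]
        rfl
      rw [e1]
      simp_rw [← mul_assoc]
      rw [← Finset.sum_mul, hproj x]
      change _ = ((Fintype.card K : ℂ) * (f : G → ℂ) c) * ext0 χ (x⁻¹ * c)
      split_ifs with hx
      · have e : (f : G → ℂ) c = ext0 χ (x⁻¹ * c)⁻¹ * (f : G → ℂ) x := by
          rw [← f.2 x _ hx]; congr 1; group
        rw [e]
        have h3 := ext0_inv_mul χ hx
        linear_combination -((Fintype.card K : ℂ) * (f : G → ℂ) x) * h3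
      · rw [ext0_not χ hx]; ring
    rw [h2] at h1
    have hne : (Fintype.card K : ℂ) * (f : G → ℂ) c ≠ 0 := by
      refine mul_ne_zero ?_ hc
      exact_mod_cast Fintype.card_ne_zero
    have h3 := W.smul_mem ((Fintype.card K : ℂ) * (f : G → ℂ) c)⁻¹ h1
    rwa [smul_smul, inv_mul_cancel₀ hne, one_smul] at h3
  have hall : ∀ x, basic χ x ∈ W := by
    intro x
    have := hW (x * c⁻¹) _ hbc
    rwa [rep_basic, inv_mul_cancel_right] at this
  rw [eq_top_iff]
  intro u _
  have h1 := eq_sum χ u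
  have h2 : (Nat.card H : ℂ) • u ∈ W := by
    rw [h1]
    exact Submodule.sum_mem _ fun x _ => W.smul_mem _ (hall x)
  have hne : (Nat.card H : ℂ) ≠ 0 := by
    exact_mod_cast Nat.card_pos.ne'
  have h3 := W.smul_mem (Nat.card H : ℂ)⁻¹ h2
  rwa [smul_smul, inv_mul_cancel₀ hne, one_smul] at h3

/-- The dimension is the index. -/
theorem finrank_space [Finite G] : finrank ℂ (space χ) = H.index := by
  classical
  let e : space χ ≃ₗ[ℂ] (G ⧸ H → ℂ) :=
    { toFun := fun f q => (f : G → ℂ) q.out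
      map_add' := fun _ _ => rfl
      map_smul' := fun _ _ => rfl
      invFun := fun F => ⟨fun x => ext0 χ (x⁻¹ * (QuotientGroup.mk x : G ⧸ H).out) *
          F (QuotientGroup.mk x), by
        intro x h hh
        have : (QuotientGroup.mk (x * h) : G ⧸ H) = QuotientGroup.mk x :=
          (QuotientGroup.eq).2 (by simpa using hh)
        simp only [this]
        rw [mul_inv_rev, mul_assoc, ext0_mul_left χ (H.inv_mem hh), mul_assoc]⟩
      left_inv := by
        intro f
        apply Subtype.ext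
        funext x
        simp only
        have hmem : x⁻¹ * (QuotientGroup.mk x : G ⧸ H).out ∈ H := by
          rw [← QuotientGroup.eq]
          simp
        have e1 : (f : G → ℂ) (QuotientGroup.mk x : G ⧸ H).out =
            ext0 χ (x⁻¹ * (QuotientGroup.mk x : G ⧸ H).out)⁻¹ * (f : G → ℂ) x := by
          rw [← f.2 x _ hmem]
          congr 1
          group
        rw [e1, ← mul_assoc, ext0_mul_inv χ hmem, one_mul]
      right_inv := by
        intro F
        funext q
        simp only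
        have : (QuotientGroup.mk q.out : G ⧸ H) = q := Quotient.out_eq q
        rw [this, inv_mul_cancel, ext0_one, one_mul] }
  have := Fintype.ofFinite (G ⧸ H)
  rw [e.finrank_eq, Module.finrank_fintype_fun_eq_card, Subgroup.index, Nat.card_eq_fintype_card]

end Q1.Monomial
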