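import Mathlib
import Pool.Agent.Q1.Monomial

/-!
# Representations of `GL_3` over a local ring whose maximal ideal has square zero
-/

namespace Q1.GLResidue

open Matrix

/-- The situation: `π : A → F` is a surjection of the commutative ring `A` onto the field `F` with
kernel `ϖ A` and `ϖ ^ 2 = 0`. -/
structure Res (A F : Type) [CommRing A] [Field F] where
  pi : A →+* F
  surj : Function.Surjective pi
  u : A
  ker : ∀ a, pi a = 0 ↔ ∃ b, a = u * b
  sq : u * u = 0

variable {A F : Type} [CommRing A] [Field F] (S : Res A F)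

lemma pi_u : S.pi S.u = 0 := (S.ker _).2 ⟨1, by simp⟩

lemma isUnit_iff (a : A) : IsUnit a ↔ S.pi a ≠ 0 := by
  constructor
  · intro h
    exact (h.map S.pi).ne_zero
  · intro h
    obtain ⟨b, hb⟩ := S.surj (S.pi a)⁻¹
    have h1 : S.pi (a * b - 1) = 0 := by
      rw [map_sub, map_mul, hb, map_one, mul_inv_cancel₀ h, sub_self]
    obtain ⟨c, hc⟩ := (S.ker _).1 h1
    have h2 : a * (b * (1 - S.u * c)) = 1 := by
      have : a * b = 1 + S.u * c := by rw [← hc]; ring
      calc a * (b * (1 - S.u * c)) = (a * b) * (1 - S.u * c) := by ring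
        _ = (1 + S.u * c) * (1 - S.u * c) := by rw [this]
        _ = 1 - (S.u * S.u) * c ^ 2 := by ring
        _ = 1 := by rw [S.sq]; ring
    exact IsUnit.of_mul_eq_one _ h2

lemma mul_eq_zero_of {a b : A} (ha : S.pi a = 0) (hb : S.pi b = 0) : a * b = 0 := by
  obtain ⟨c, rfl⟩ := (S.ker _).1 ha
  obtain ⟨d, rfl⟩ := (S.ker _).1 hb
  calc S.u * c * (S.u * d) = (S.u * S.u) * (c * d) := by ring
    _ = 0 := by rw [S.sq, zero_mul]

/-- reduction on `GL_n` -/
abbrev red (n : Type) [Fintype n] [DecidableEq n] : GL n A →* GL n F :=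
  Matrix.GeneralLinearGroup.map S.pi

lemma red_surj (n : Type) [Fintype n] [DecidableEq n] : Function.Surjective (red S n) := by
  intro g
  choose f hf using S.surj
  let M : Matrix n n A := Matrix.of fun i j => f (g i j)
  have hM : S.pi.mapMatrix M = (g : Matrix n n F) := by
    ext i j
    simp [M, hf]
  have hdet : IsUnit M.det := by
    rw [isUnit_iff S, RingHom.map_det, hM]
    exact Matrix.GeneralLinearGroup.det_ne_zero g
  refine ⟨Matrix.GeneralLinearGroup.mk'' M hdet, ?_⟩
  ext i j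
  rw [Matrix.GeneralLinearGroup.map_apply]
  change S.pi (M i j) = _
  simp [M, hf]

/-- The diagonal torus. -/
def torusHom (F : Type) [Field F] : (Fin 3 → Fˣ) →* GL (Fin 3) F where
  toFun t :=
    ⟨Matrix.diagonal fun i => (t i : F), Matrix.diagonal fun i => ((t i)⁻¹ : Fˣ),
      by rw [Matrix.diagonal_mul_diagonal]; simp,
      by rw [Matrix.diagonal_mul_diagonal]; simp⟩
  map_one' := by
    apply Units.ext
    simp
  map_mul' a b := by
    apply Units.ext
    simp [Matrix.diagonal_mul_diagonal]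

lemma torusHom_inj (F : Type) [Field F] : Function.Injective (torusHom F) := by
  intro a b h
  funext i
  apply Units.ext
  have := congrArg (fun g : GL (Fin 3) F => (g : Matrix (Fin 3) (Fin 3) F) i i) h
  simpa [torusHom] using this

/-- The torus as a subgroup. -/
def torus (F : Type) [Field F] : Subgroup (GL (Fin 3) F) := (torusHom F).range

lemma mem_torus (g : GL (Fin 3) F) : g ∈ torus F ↔ ∀ i j, i ≠ j → g i j = 0 := by
  constructor
  · rintro ⟨t, rfl⟩ i j hij
    simp [torusHom, Matrix.diagonal_apply_ne _ hij]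
  · intro h
    have hg : (g : Matrix (Fin 3) (Fin 3) F) = Matrix.diagonal fun i => g i i := by
      ext i j
      by_cases hij : i = j
      · subst hij; simp
      · rw [h i j hij, Matrix.diagonal_apply_ne _ hij]
    have hdet := Matrix.GeneralLinearGroup.det_ne_zero g
    rw [hg, Matrix.det_diagonal] at hdet
    have hne : ∀ i, g i i ≠ 0 := fun i => (Finset.prod_ne_zero_iff.1 hdet) i (Finset.mem_univ i)
    refine ⟨fun i => Units.mk0 (g i i) (hne i), ?_⟩
    apply Units.ext
    change (Matrix.diagonal fun i => ((Units.mk0 (g i i) (hne i) : Fˣ) : F)) = _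
    simp only [Units.val_mk0]
    exact hg.symm

lemma card_torus [Finite F] : Nat.card (torus F) = (Nat.card F - 1) ^ 3 := by
  have := Fintype.ofFinite F
  have e : Nat.card (torus F) = Nat.card (Fin 3 → Fˣ) :=
    (Nat.card_congr (MonoidHom.ofInjective (torusHom_inj F)).toEquiv).symm
  rw [e, Nat.card_pi]
  simp [Nat.card_units]

lemma index_torus [Finite F] (q : ℕ) (hq : Nat.card F = q) :
    (torus F).index = q ^ 3 * (q + 1) * (q ^ 2 + q + 1) := by
  have := Fintype.ofFinite F
  have h1 := (torus F).index_mul_card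
  rw [Matrix.card_GL_field, card_torus, hq] at h1
  have hq' : Fintype.card F = q := by rw [← hq, Nat.card_eq_fintype_card]
  rw [hq'] at h1
  simp only [Fin.prod_univ_three] at h1
  have hq2 : 2 ≤ q := by
    rw [← hq']
    exact Fintype.one_lt_card
  obtain ⟨m, rfl⟩ : ∃ m, q = m + 1 := ⟨q - 1, by omega⟩
  have hm : 0 < m ^ 3 := Nat.pow_pos (by omega)
  have e0 : (m + 1) ^ 3 - (m + 1) ^ ((0 : Fin 3) : ℕ) = m * ((m + 1) ^ 2 + (m + 1) + 1) := by
    apply Nat.sub_eq_of_eq_add
    simp only [Fin.val_zero]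
    ring
  have e1 : (m + 1) ^ 3 - (m + 1) ^ ((1 : Fin 3) : ℕ) = (m + 1) * m * (m + 2) := by
    apply Nat.sub_eq_of_eq_add
    simp only [Fin.val_one]
    ring
  have e2 : (m + 1) ^ 3 - (m + 1) ^ ((2 : Fin 3) : ℕ) = (m + 1) ^ 2 * m := by
    apply Nat.sub_eq_of_eq_add
    simp only [Fin.val_two]
    ring
  rw [e0, e1, e2, Nat.add_sub_cancel] at h1
  apply Nat.eq_of_mul_eq_mul_right hm
  rw [h1]
  ring

/-- The preimage of the torus. -/
def H : Subgroup (GL (Fin 3) A) := (torus F).comap (red S (Fin 3))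

/-- The kernel of reduction. -/
def K : Subgroup (GL (Fin 3) A) := (red S (Fin 3)).ker

lemma mem_H (g : GL (Fin 3) A) : g ∈ H S ↔ ∀ i j, i ≠ j → S.pi (g i j) = 0 := by
  rw [H, Subgroup.mem_comap, mem_torus]
  simp only [red, Matrix.GeneralLinearGroup.map_apply]

lemma K_le_H : K S ≤ H S := by
  intro g hg
  rw [H, Subgroup.mem_comap]
  rw [K, MonoidHom.mem_ker] at hg
  rw [hg]
  exact one_mem _

lemma index_H [Finite F] (q : ℕ) (hq : Nat.card F = q) :
    (H S).index = q ^ 3 * (q + 1) * (q ^ 2 + q + 1) := by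
  rw [H, Subgroup.index_comap_of_surjective _ (red_surj S (Fin 3)), index_torus q hq]

/-- `1 + u x` as an element of `GL_3`. -/
def kap (x : Matrix (Fin 3) (Fin 3) A) : GL (Fin 3) A where
  val := 1 + S.u • x
  inv := 1 - S.u • x
  val_inv := by
    have h0 : (S.u • x) * (S.u • x) = 0 := by
      rw [smul_mul_smul_comm, S.sq, zero_smul]
    have h1 : ∀ y : Matrix (Fin 3) (Fin 3) A, (1 + y) * (1 - y) = 1 - y * y := by
      intro y; noncomm_ring
    rw [h1, h0, sub_zero]
  inv_val := by
    have h0 : (S.u • x) * (S.u • x) = 0 := by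
      rw [smul_mul_smul_comm, S.sq, zero_smul]
    have h1 : ∀ y : Matrix (Fin 3) (Fin 3) A, (1 - y) * (1 + y) = 1 - y * y := by
      intro y; noncomm_ring
    rw [h1, h0, sub_zero]

lemma kap_val (x : Matrix (Fin 3) (Fin 3) A) :
    ((kap S x : GL (Fin 3) A) : Matrix (Fin 3) (Fin 3) A) = 1 + S.u • x := rfl

lemma kap_mem (x : Matrix (Fin 3) (Fin 3) A) : kap S x ∈ K S := by
  rw [K, MonoidHom.mem_ker]
  ext i j
  rw [Matrix.GeneralLinearGroup.map_apply, kap_val]
  simp [pi_u S, Matrix.one_apply]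

lemma exists_kap {g : GL (Fin 3) A} (hg : g ∈ K S) : ∃ x, g = kap S x := by
  rw [K, MonoidHom.mem_ker] at hg
  have h1 : ∀ i j, ∃ b, g i j - (1 : Matrix (Fin 3) (Fin 3) A) i j = S.u * b := by
    intro i j
    rw [← S.ker, map_sub]
    have := congrArg (fun h : GL (Fin 3) F => h i j) hg
    simp only [red, Matrix.GeneralLinearGroup.map_apply] at this
    rw [this]
    by_cases hij : i = j
    · subst hij; simp
    · simp [Matrix.one_apply_ne hij]
  choose x hx using h1
  refine ⟨Matrix.of x, ?_⟩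
  ext i j
  rw [kap_val]
  simp only [Matrix.add_apply, Matrix.smul_apply, Matrix.of_apply, smul_eq_mul]
  rw [← hx i j]
  ring

/-- The `i`-th diagonal entry as a homomorphism on `H`. -/
def delta (i : Fin 3) : H S →* A where
  toFun g := (g : GL (Fin 3) A) i i
  map_one' := by simp
  map_mul' a b := by
    have ha := (mem_H S a).1 a.2
    have hb := (mem_H S b).1 b.2
    change ((a : GL (Fin 3) A) * (b : GL (Fin 3) A)) i i = _
    rw [Units.val_mul, Matrix.mul_apply, Finset.sum_eq_single i]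
    · intro j _ hj
      exact mul_eq_zero_of S (ha i j (Ne.symm hj)) (hb j i hj)
    · intro h; exact absurd (Finset.mem_univ i) h

/-- `1 + u a` as a unit. -/
def unitOf (a : A) : Aˣ where
  val := 1 + S.u * a
  inv := 1 - S.u * a
  val_inv := by
    have := S.sq
    linear_combination (-a ^ 2) * this
  inv_val := by
    have := S.sq
    linear_combination (-a ^ 2) * this

lemma unitOf_add (a b : A) : unitOf S (a + b) = unitOf S a * unitOf S b := by
  apply Units.ext
  change 1 + S.u * (a + b) = (1 + S.u * a) * (1 + S.u * b)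
  have := S.sq
  linear_combination (-(a * b)) * this

variable (θ : Aˣ →* ℂˣ)

/-- The character of `H`. -/
noncomputable def chi : H S →* ℂˣ :=
  (θ.comp (delta S 1).toHomUnits) * (θ.comp (delta S 2).toHomUnits) ^ 2

lemma chi_kap (x : Matrix (Fin 3) (Fin 3) A) (h : kap S x ∈ H S) :
    chi S θ ⟨kap S x, h⟩ = θ (unitOf S (x 1 1 + 2 * x 2 2)) := by
  have e : ∀ i, (delta S i).toHomUnits ⟨kap S x, h⟩ = unitOf S (x i i) := by
    intro i
    apply Units.ext
    rw [MonoidHom.coe_toHomUnits]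
    change (kap S x : Matrix (Fin 3) (Fin 3) A) i i = 1 + S.u * x i i
    rw [kap_val]
    simp
  simp only [chi, MonoidHom.mul_apply, MonoidHom.comp_apply, MonoidHom.pow_apply, e]
  have e2 : x 1 1 + 2 * x 2 2 = x 1 1 + (x 2 2 + x 2 2) := by ring
  rw [e2, unitOf_add, unitOf_add, map_mul, map_mul, pow_two]

open Q1.Monomial in
lemma ext0_kap (x : Matrix (Fin 3) (Fin 3) A) :
    ext0 (chi S θ) (kap S x) = (θ (unitOf S (x 1 1 + 2 * x 2 2)) : ℂ) := by
  rw [ext0_mem _ (K_le_H S (kap_mem S x)), chi_kap]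

lemma kap_conj (g : GL (Fin 3) A) (x : Matrix (Fin 3) (Fin 3) A) :
    g⁻¹ * kap S x * g = kap S ((g⁻¹ : GL (Fin 3) A) * x * (g : GL (Fin 3) A)) := by
  apply Units.ext
  rw [Units.val_mul, Units.val_mul, kap_val, kap_val]
  have : ((g⁻¹ : GL (Fin 3) A) : Matrix (Fin 3) (Fin 3) A) * (g : Matrix (Fin 3) (Fin 3) A) = 1 :=
    g.inv_mul
  rw [mul_add, add_mul, mul_one, this, mul_smul_comm, smul_mul_assoc]

/-- The weight matrix. -/
def B (A : Type) [CommRing A] : Matrix (Fin 3) (Fin 3) A := Matrix.diagonal ![0, 1, 2]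

lemma trace_B (x : Matrix (Fin 3) (Fin 3) A) : (B A * x).trace = x 1 1 + 2 * x 2 2 := by
  rw [Matrix.trace_fin_three]
  simp [B, Matrix.diagonal_mul]

open Q1.Monomial in
/-- No element outside `H` fixes the character on `K`. -/
lemma hsep (h2 : (2 : F) ≠ 0) (hθ : θ (unitOf S 1) ≠ 1) (g : GL (Fin 3) A) (hg : g ∉ H S) :
    ∃ k ∈ K S, ext0 (chi S θ) (g⁻¹ * k * g) ≠ ext0 (chi S θ) k := by
  rw [mem_H] at hg
  push Not at hg
  obtain ⟨i, j, hij, hgij⟩ := hg
  let gm : Matrix (Fin 3) (Fin 3) A := g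
  let gi : Matrix (Fin 3) (Fin 3) A := (g⁻¹ : GL (Fin 3) A)
  have hgi : gi * gm = 1 := g.inv_mul
  let C : Matrix (Fin 3) (Fin 3) A := gm * B A * gi - B A
  have hC : C * gm = gm * B A - B A * gm := by
    simp only [C]
    rw [sub_mul, mul_assoc, hgi, mul_one]
  -- some entry of `C` is a unit
  have hCne : ∃ a b, S.pi (C a b) ≠ 0 := by
    by_contra hcon
    push Not at hcon
    have h1 : S.pi ((C * gm) i j) = 0 := by
      rw [Matrix.mul_apply, map_sum]
      refine Finset.sum_eq_zero fun l _ => ?_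
      rw [map_mul, hcon, zero_mul]
    rw [hC, Matrix.sub_apply] at h1
    simp only [B, Matrix.mul_diagonal, Matrix.diagonal_mul] at h1
    rw [map_sub, map_mul, map_mul] at h1
    have h3 : S.pi (gm i j) ≠ 0 := hgij
    have h4 : (S.pi (![0, 1, 2] j) - S.pi (![0, 1, 2] i)) * S.pi (gm i j) = 0 := by
      linear_combination h1
    rcases mul_eq_zero.1 h4 with h5 | h5
    · have h21 : (2 : F) - 1 ≠ 0 := by norm_num
      have h12 : (1 : F) - 2 ≠ 0 := by norm_num
      have hp2 : S.pi 2 = 2 := map_ofNat _ _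
      fin_cases i <;> fin_cases j <;> simp [hp2] at h5 hij <;> first
        | exact h2 h5
        | exact h21 h5
        | exact h12 h5
    · exact h3 h5
  obtain ⟨a, b, hab⟩ := hCne
  obtain ⟨c, hc⟩ := (isUnit_iff S _).2 hab
  let x : Matrix (Fin 3) (Fin 3) A := Matrix.single b a (c⁻¹ : Aˣ)
  have hx : (C * x).trace = 1 := by
    rw [Matrix.trace_mul_comm]
    simp only [x]
    rw [Matrix.trace_single_mul, ← hc]
    simp
  refine ⟨kap S x, kap_mem S x, ?_⟩
  rw [kap_conj, ext0_kap, ext0_kap, ← trace_B, ← trace_B]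
  have e1 : (B A * (gi * x * gm)).trace = (B A * x).trace + 1 := by
    rw [← hx]
    have : (B A * (gi * x * gm)).trace = (gm * B A * gi * x).trace := by
      rw [← mul_assoc, Matrix.trace_mul_comm, ← mul_assoc, ← mul_assoc]
    rw [this]
    simp only [C]
    rw [sub_mul, Matrix.trace_sub]
    ring
  change (θ (unitOf S ((B A * (gi * x * gm)).trace)) : ℂ) ≠ _
  rw [e1, unitOf_add, map_mul]
  intro h
  apply hθ
  apply Units.ext
  rw [Units.val_mul] at h
  have h0 : ((θ (unitOf S ((B A * x).trace)) : ℂˣ) : ℂ) ≠ 0 := Units.ne_zero _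
  rw [Units.val_one]
  exact mul_left_cancel₀ h0 (by rw [h, mul_one])

open Q1.Monomial in
/-- Existence of the primitive representation of generic dimension. -/
theorem exists_generic [Finite A] [Finite F] (h2 : (2 : F) ≠ 0) (hu : S.u ≠ 0) (q : ℕ)
    (hq : Nat.card F = q) :
    ∃ (V : Type) (_ : AddCommGroup V) (_ : Module ℂ V)
      (ρ : Representation ℂ (GL (Fin 3) A) V), FiniteDimensional ℂ V ∧ Nontrivial V ∧
      (∀ W : Submodule ℂ V, (∀ g v, v ∈ W → ρ g v ∈ W) → W = ⊥ ∨ W = ⊤) ∧
      (∃ x, ρ (kap S x) ≠ 1) ∧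
      Module.finrank ℂ V = q ^ 3 * (q + 1) * (q ^ 2 + q + 1) := by
  have hne : unitOf S 1 ≠ 1 := by
    intro h
    have := congrArg (fun y : Aˣ => (y : A)) h
    simp only [unitOf, mul_one, Units.val_one] at this
    exact hu (by linear_combination this)
  obtain ⟨θ, hθ⟩ := CommGroup.exists_apply_ne_one_of_hasEnoughRootsOfUnity Aˣ ℂ hne
  have hG : Finite (GL (Fin 3) A) := inferInstance
  have hqpos : 0 < q := by rw [← hq]; exact Nat.card_pos
  have hdim : Module.finrank ℂ (space (chi S θ)) = q ^ 3 * (q + 1) * (q ^ 2 + q + 1) := by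
    rw [finrank_space, index_H S q hq]
  have hpos : 0 < Module.finrank ℂ (space (chi S θ)) := by rw [hdim]; positivity
  refine ⟨space (chi S θ), inferInstance, inferInstance, rep (chi S θ), inferInstance,
    Module.nontrivial_of_finrank_pos hpos, ?_, ?_, hdim⟩
  · exact fun W hW => irreducible (K := K S) (chi S θ) (MonoidHom.normal_ker _) (K_le_H S)
      (fun g hg => hsep S θ h2 hθ g hg) W hW
  · refine ⟨Matrix.single 1 1 1, ?_⟩
    intro h
    have h1 := congrArg (fun T => ((T (basic (chi S θ) 1) : space (chi S θ)) :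
      GL (Fin 3) A → ℂ) 1) h
    simp only [rep_basic, basic_apply, mul_one, inv_one, one_mul, Module.End.one_apply,
      ext0_one] at h1
    rw [ext0_kap] at h1
    apply hθ
    apply Units.ext
    rw [Units.val_one, ← h1]
    simp

end Q1.GLResidue
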