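import Mathlib
import Pool.Agent.Q1.GLResidue
import Pool.Agent.Q1.Centralizer2

/-!
# Irreducible representations of `GL_3` over a local ring with residue field `F_2` and
maximal ideal of square zero have dimension at most `84`.
-/

namespace Q1.GLTwo

open Matrix Q1.GLResidue

/-- the sign character of the field with two elements -/
def eps (a : ZMod 2) : ℂ := if a = 0 then 1 else -1

lemma zmod2 (a : ZMod 2) : a = 0 ∨ a = 1 := by
  fin_cases a
  · exact Or.inl rfl
  · exact Or.inr rfl

lemma eps_zero : eps 0 = 1 := if_pos rfl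

lemma eps_one : eps 1 = -1 := if_neg (by decide)

lemma eps_add (a b : ZMod 2) : eps (a + b) = eps a * eps b := by
  rcases zmod2 a with rfl | rfl
  · rw [zero_add, eps_zero, one_mul]
  · rcases zmod2 b with rfl | rfl
    · rw [add_zero, eps_zero, mul_one]
    · have : (1 : ZMod 2) + 1 = 0 := by decide
      rw [this, eps_zero, eps_one]; ring

lemma eps_mul_self (a : ZMod 2) : eps a * eps a = 1 := by
  rcases zmod2 a with rfl | rfl
  · rw [eps_zero]; ring
  · rw [eps_one]; ring

/-- shorthand for matrices over the field with two elements -/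
abbrev M2 := Matrix (Fin 3) (Fin 3) (ZMod 2)

lemma sum_eps (x : M2) (hx : x ≠ 0) : ∑ β : M2, eps (β * x).trace = 0 := by
  have : ∃ i j, x i j ≠ 0 := by
    by_contra h
    push Not at h
    exact hx (Matrix.ext h)
  obtain ⟨i, j, hij⟩ := this
  have hij1 : x i j = 1 := (zmod2 (x i j)).resolve_left hij
  have htr : ((Matrix.single j i 1 : M2) * x).trace = 1 := by
    rw [Matrix.trace_single_mul, hij1]
    simp
  have h1 : ∑ β : M2, eps (β * x).trace = -∑ β : M2, eps (β * x).trace := by
    calc ∑ β : M2, eps (β * x).trace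
        = ∑ β : M2, eps ((β + Matrix.single j i 1) * x).trace :=
          (Equiv.sum_comp (Equiv.addRight (Matrix.single j i 1 : M2))
            (fun β => eps (β * x).trace)).symm
      _ = ∑ β : M2, -eps (β * x).trace := by
          refine Finset.sum_congr rfl fun β _ => ?_
          rw [add_mul, Matrix.trace_add, eps_add, htr, eps_one]
          ring
      _ = _ := by rw [Finset.sum_neg_distrib]
  have h2 : (2 : ℂ) * ∑ β : M2, eps (β * x).trace = 0 := by linear_combination h1
  rcases mul_eq_zero.1 h2 with h | h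
  · norm_num at h
  · exact h

variable {A : Type} [CommRing A] (S : Res A (ZMod 2))

lemma kap_congr {x y : Matrix (Fin 3) (Fin 3) A} (h : ∀ i j, S.pi (x i j) = S.pi (y i j)) :
    kap S x = kap S y := by
  ext i j
  rw [kap_val, kap_val]
  simp only [Matrix.add_apply, Matrix.smul_apply, smul_eq_mul]
  have h1 : S.pi (x i j - y i j) = 0 := by rw [map_sub, h, sub_self]
  obtain ⟨b, hb⟩ := (S.ker _).1 h1
  have h2 : S.u * (x i j - y i j) = 0 := by rw [hb, ← mul_assoc, S.sq, zero_mul]
  linear_combination h2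

lemma kap_add (x y : Matrix (Fin 3) (Fin 3) A) : kap S (x + y) = kap S x * kap S y := by
  apply Units.ext
  rw [Units.val_mul, kap_val, kap_val, kap_val]
  have h0 : (S.u • x) * (S.u • y) = 0 := by
    rw [smul_mul_smul_comm, S.sq, zero_smul]
  rw [add_mul, one_mul, mul_add, mul_one, h0, add_zero, smul_add]
  abel

/-- the section -/
noncomputable def lift (x : M2) : Matrix (Fin 3) (Fin 3) A := x.map (Function.surjInv S.surj)

lemma pi_lift (x : M2) (i j : Fin 3) : S.pi (lift S x i j) = x i j :=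
  Function.surjInv_eq S.surj _

/-- the embedding of matrices over the residue field -/
noncomputable def ka (x : M2) : GL (Fin 3) A := kap S (lift S x)

lemma ka_add (x y : M2) : ka S (x + y) = ka S x * ka S y := by
  rw [ka, ka, ka, ← kap_add]
  apply kap_congr
  intro i j
  simp [pi_lift]

lemma ka_zero : ka S 0 = 1 := by
  have := ka_add S 0 0
  rw [add_zero] at this
  exact (left_eq_mul.1 this)

lemma ka_conj (g : GL (Fin 3) A) (x : M2) :
    g⁻¹ * ka S x * g = ka S (((red S (Fin 3) g)⁻¹ : GL (Fin 3) (ZMod 2)) * x *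
      (red S (Fin 3) g : GL (Fin 3) (ZMod 2))) := by
  rw [ka, kap_conj, ka]
  apply kap_congr
  intro i j
  rw [pi_lift]
  have e : ∀ (P Q : Matrix (Fin 3) (Fin 3) A) (i j : Fin 3),
      S.pi ((P * Q) i j) = ((P.map S.pi) * (Q.map S.pi)) i j := by
    intro P Q i j
    rw [Matrix.mul_apply, Matrix.mul_apply, map_sum]
    simp
  rw [e]
  have e2 : (((g⁻¹ : GL (Fin 3) A) : Matrix (Fin 3) (Fin 3) A) * lift S x).map S.pi =
      ((red S (Fin 3) g)⁻¹ : GL (Fin 3) (ZMod 2)) * x := by
    have e3 : ((g⁻¹ : GL (Fin 3) A) : Matrix (Fin 3) (Fin 3) A).map S.pi =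
        ((red S (Fin 3) g)⁻¹ : GL (Fin 3) (ZMod 2)) := by
      rw [← map_inv]
      rfl
    have e4 : (lift S x).map S.pi = x := by
      ext c d
      exact pi_lift S x c d
    ext a b
    rw [Matrix.map_apply, e, e3, e4]
  rw [e2]
  rfl

lemma mem_K_iff (g : GL (Fin 3) A) : g ∈ K S ↔ ∃ x, g = ka S x := by
  constructor
  · intro hg
    obtain ⟨x, rfl⟩ := exists_kap S hg
    refine ⟨x.map S.pi, ?_⟩
    rw [ka]
    apply kap_congr
    intro i j
    rw [pi_lift]
    rfl
  · rintro ⟨x, rfl⟩
    exact kap_mem S _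

lemma index_K : (K S).index = 168 := by
  rw [K, Subgroup.index_ker, MonoidHom.range_eq_top.2 (red_surj S (Fin 3))]
  rw [Subgroup.card_top, Matrix.card_GL_field]
  simp [Fin.prod_univ_three]

section Rep

variable {V : Type} [AddCommGroup V] [Module ℂ V] (ρ : Representation ℂ (GL (Fin 3) A) V)

/-- weight spaces for the kernel -/
def wt (β : M2) : Submodule ℂ V where
  carrier := {v | ∀ x : M2, ρ (ka S x) v = eps (β * x).trace • v}
  zero_mem' := by intro x; simp
  add_mem' := by intro v w hv hw x; rw [map_add, hv x, hw x, smul_add]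
  smul_mem' := by intro c v hv x; rw [map_smul, hv x, smul_comm]

lemma mem_wt {β : M2} {v : V} : v ∈ wt S ρ β ↔ ∀ x : M2, ρ (ka S x) v = eps (β * x).trace • v :=
  Iff.rfl

lemma exists_wt [Nontrivial V] : ∃ β, wt S ρ β ≠ ⊥ := by
  by_contra hcon
  push Not at hcon
  obtain ⟨v, hv⟩ := exists_ne (0 : V)
  have h1 : ∀ β : M2, ∑ x : M2, eps (β * x).trace • ρ (ka S x) v = 0 := by
    intro β
    have hmem : ∑ x : M2, eps (β * x).trace • ρ (ka S x) v ∈ wt S ρ β := by
      intro y
      rw [map_sum, Finset.smul_sum]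
      rw [← Equiv.sum_comp (Equiv.addLeft y)
        (fun x => eps (β * y).trace • eps (β * x).trace • ρ (ka S x) v)]
      refine Finset.sum_congr rfl fun x _ => ?_
      simp only [Equiv.coe_addLeft]
      rw [map_smul, ka_add, map_mul, mul_add, Matrix.trace_add, eps_add, smul_smul, ← mul_assoc,
        eps_mul_self, one_mul]
      rfl
    rw [hcon β] at hmem
    simpa using hmem
  have h2 : ∑ β : M2, ∑ x : M2, eps (β * x).trace • ρ (ka S x) v = 0 :=
    Finset.sum_eq_zero fun β _ => h1 β
  rw [Finset.sum_comm] at h2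
  have h3 : ∀ x : M2, ∑ β : M2, eps (β * x).trace • ρ (ka S x) v =
      (if x = 0 then (Fintype.card M2 : ℂ) else 0) • ρ (ka S x) v := by
    intro x
    rw [← Finset.sum_smul]
    split_ifs with hx
    · subst hx
      simp [eps_zero]
    · rw [sum_eps x hx]
  rw [Finset.sum_congr rfl fun x _ => h3 x] at h2
  simp only [ite_smul, zero_smul, Finset.sum_ite_eq', Finset.mem_univ, if_true] at h2
  rw [ka_zero, map_one, Module.End.one_apply] at h2
  rcases smul_eq_zero.1 h2 with h4 | h4
  · have : (Fintype.card M2 : ℂ) ≠ 0 := by exact_mod_cast Fintype.card_ne_zero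
    exact this h4
  · exact hv h4

/-- Dimension bound. -/
theorem finrank_le (S : Res A (ZMod 2)) [Finite A] [FiniteDimensional ℂ V] [Nontrivial V]
    (hirr : ∀ W : Submodule ℂ V, (∀ g v, v ∈ W → ρ g v ∈ W) → W = ⊥ ∨ W = ⊤) :
    Module.finrank ℂ V ≤ 84 := by
  classical
  obtain ⟨β, hβ⟩ := exists_wt S ρ
  obtain ⟨h, hdet, hcomm, hne⟩ := Q1.Centralizer2.exists_comm β
  have hunit : IsUnit h.det := by rw [hdet]; exact isUnit_one
  let hg : GL (Fin 3) (ZMod 2) := Matrix.GeneralLinearGroup.mk'' h hunit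
  obtain ⟨g, hgr⟩ := red_surj S (Fin 3) hg
  have hgK : g ∉ K S := by
    intro hk
    rw [K, MonoidHom.mem_ker, hgr] at hk
    exact hne (congrArg (fun y : GL (Fin 3) (ZMod 2) => (y : M2)) hk)
  have hginv : ((hg⁻¹ : GL (Fin 3) (ZMod 2)) : M2) * h = 1 := hg.inv_mul
  have hginv' : h * ((hg⁻¹ : GL (Fin 3) (ZMod 2)) : M2) = 1 := hg.mul_inv
  -- `g` preserves the weight space
  have hst : ∀ v ∈ wt S ρ β, ρ g v ∈ wt S ρ β := by
    intro v hv x
    have e1 : ρ (ka S x) (ρ g v) = ρ g (ρ (g⁻¹ * ka S x * g) v) := by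
      rw [← Module.End.mul_apply, ← map_mul, ← Module.End.mul_apply, ← map_mul]
      congr 2
      group
    have hgh : (hg : M2) = h := rfl
    have e3 : h * (β * ((hg⁻¹ : GL (Fin 3) (ZMod 2)) : M2) * x) = β * x := by
      rw [← mul_assoc, ← mul_assoc, hcomm, mul_assoc β, hginv', mul_one]
    have e4 : (β * (((hg⁻¹ : GL (Fin 3) (ZMod 2)) : M2) * x * (hg : M2))).trace =
        (β * x).trace := by
      rw [hgh]
      have e2 : β * (((hg⁻¹ : GL (Fin 3) (ZMod 2)) : M2) * x * h) =
          (β * ((hg⁻¹ : GL (Fin 3) (ZMod 2)) : M2) * x) * h := by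
        simp only [mul_assoc]
      rw [e2, Matrix.trace_mul_comm, e3]
    rw [e1, ka_conj, hgr, (mem_wt S ρ).1 hv, map_smul, e4]
  -- an eigenvector
  have hnt : Nontrivial (wt S ρ β) := Submodule.nontrivial_iff_ne_bot.2 hβ
  obtain ⟨c, hc⟩ := Module.End.exists_eigenvalue ((ρ g).restrict hst)
  obtain ⟨w, hw⟩ := hc.exists_hasEigenvector
  have hw0 : (w : V) ≠ 0 := fun h0 => hw.2 (Subtype.ext h0)
  have hwg : ρ g (w : V) = c • (w : V) := congrArg Subtype.val hw.apply_eq_smul
  -- the stabilizer of the line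
  let L : Subgroup (GL (Fin 3) A) :=
    { carrier := {y | ∃ c : ℂ, ρ y (w : V) = c • (w : V)}
      one_mem' := ⟨1, by simp⟩
      mul_mem' := by
        rintro a b ⟨c, hc⟩ ⟨d, hd⟩
        exact ⟨d * c, by rw [map_mul, Module.End.mul_apply, hd, map_smul, hc, smul_smul]⟩
      inv_mem' := by
        rintro a ⟨c, hc⟩
        have h1 : ρ a⁻¹ (ρ a (w : V)) = (w : V) := by
          rw [← Module.End.mul_apply, ← map_mul, inv_mul_cancel, map_one]; rfl
        have hc0 : c ≠ 0 := by
          rintro rfl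
          rw [hc, zero_smul, map_zero] at h1
          exact hw0 h1.symm
        refine ⟨c⁻¹, ?_⟩
        rw [hc, map_smul] at h1
        rw [eq_inv_smul_iff₀ hc0]
        exact h1 }
  have hgL : g ∈ L := ⟨c, hwg⟩
  have hKL : K S ≤ L := by
    intro y hy
    obtain ⟨x, rfl⟩ := (mem_K_iff S y).1 hy
    exact ⟨_, (mem_wt S ρ).1 w.2 x⟩
  have hLidx : L.index ≤ 84 := by
    have h1 := Subgroup.relIndex_mul_index hKL
    rw [index_K] at h1
    have h2 : (K S).relIndex L ≠ 1 := by
      intro h3
      exact hgK (Subgroup.relIndex_eq_one.1 h3 hgL)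
    have h3 : (K S).relIndex L ≠ 0 := by
      intro h4; rw [h4] at h1; omega
    have h4 : 2 ≤ (K S).relIndex L := by omega
    nlinarith
  -- spanning
  have := Fintype.ofFinite (GL (Fin 3) A ⧸ L)
  let P : Submodule ℂ V := Submodule.span ℂ (Set.range fun q : GL (Fin 3) A ⧸ L => ρ q.out (w : V))
  have hmem : ∀ y : GL (Fin 3) A, ρ y (w : V) ∈ P := by
    intro y
    let q : GL (Fin 3) A ⧸ L := QuotientGroup.mk y
    have hq : q.out⁻¹ * y ∈ L := by
      rw [← QuotientGroup.eq]
      exact Quotient.out_eq q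
    obtain ⟨d, hd⟩ := hq
    have e : ρ y (w : V) = d • ρ q.out (w : V) := by
      rw [← map_smul, ← hd, ← Module.End.mul_apply, ← map_mul]
      congr 2
      group
    rw [e]
    exact P.smul_mem _ (Submodule.subset_span ⟨q, rfl⟩)
  have hPst : ∀ y v, v ∈ P → ρ y v ∈ P := by
    intro y v hv
    induction hv using Submodule.span_induction with
    | mem x hx =>
      obtain ⟨q, rfl⟩ := hx
      simp only
      rw [← Module.End.mul_apply, ← map_mul]
      exact hmem _
    | zero => rw [map_zero]; exact P.zero_mem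
    | add x y _ _ hx hy => rw [map_add]; exact P.add_mem hx hy
    | smul a x _ hx => rw [map_smul]; exact P.smul_mem _ hx
  have hPtop : P = ⊤ := by
    rcases hirr P hPst with h1 | h1
    · exfalso
      have := hmem 1
      rw [h1, map_one] at this
      exact hw0 (by simpa using this)
    · exact h1
  have h1 : Module.finrank ℂ P ≤ Fintype.card (GL (Fin 3) A ⧸ L) :=
    finrank_range_le_card (fun q : GL (Fin 3) A ⧸ L => ρ q.out (w : V))
  rw [hPtop, finrank_top] at h1
  rw [Subgroup.index, Nat.card_eq_fintype_card] at hLidx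
  omega

end Rep

end Q1.GLTwo
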