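import Mathlib

/-!
# Trace operators on tensor powers of modules over finite monoids

Helper module for MP_09fe95.
-/

namespace Q1.MonoidTensor

open scoped TensorProduct
open Module

universe u v w

section Key

variable {k : Type u} [Field k] {M : Type w} [Monoid M] [Finite M]
variable {X : Type v} [AddCommGroup X] [Module k X] [FiniteDimensional k X]

/-- The criterion: a vector killed by the non-units and a functional killing the images of the
non-units whose trace operator has the vector as eigenvector for a nonzero eigenvalue. -/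
theorem key (τ : Representation k M X) (x : X) (f : X →ₗ[k] k)
    (h1 : ∀ m, ¬ IsUnit m → τ m x = 0) (h2 : ∀ m, ¬ IsUnit m → ∀ y, f (τ m y) = 0)
    (c : k) (hc : c ≠ 0) (hx : x ≠ 0)
    (h3 : ∑ᶠ g : Mˣ, f (τ ((g⁻¹ : Mˣ) : M) x) • τ (g : M) x = c • x) :
    ∃ W C : Submodule k X, IsCompl W C ∧ Nontrivial W ∧ (∀ m, ∀ w ∈ W, τ m w ∈ W) ∧
      (∀ m, ∀ w ∈ C, τ m w ∈ C) ∧ (∀ m, ¬ IsUnit m → ∀ w ∈ W, τ m w = 0) := by
  classical
  have := Fintype.ofFinite M
  have := Fintype.ofFinite Mˣ
  rw [finsum_eq_sum_of_fintype] at h3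
  set T : Module.End k X := ∑ g : Mˣ, ((f ∘ₗ τ ((g⁻¹ : Mˣ) : M)).smulRight (τ (g : M) x)) with hT
  have hTa : ∀ y, T y = ∑ g : Mˣ, f (τ ((g⁻¹ : Mˣ) : M) y) • τ (g : M) x := by
    intro y
    simp [hT, LinearMap.sum_apply]
  have hTx : T x = c • x := by rw [hTa, h3]
  have hcomm : ∀ m y, T (τ m y) = τ m (T y) := by
    intro m y
    rw [hTa, hTa, map_sum]
    by_cases hm : IsUnit m
    · obtain ⟨u, rfl⟩ := hm
      rw [← Equiv.sum_comp (Equiv.mulLeft u)]
      refine Finset.sum_congr rfl fun g _ => ?_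
      simp only [Equiv.coe_mulLeft, map_smul]
      congr 1
      · congr 1
        rw [← Module.End.mul_apply, ← map_mul]
        congr 2
        simp
      · rw [← Module.End.mul_apply, ← map_mul]
        congr 2
    · have e1 : ∀ g : Mˣ, f (τ ((g⁻¹ : Mˣ) : M) (τ m y)) = 0 := by
        intro g
        rw [← Module.End.mul_apply, ← map_mul]
        apply h2
        exact fun h => hm (isUnit_of_mul_isUnit_right h)
      have e2 : ∀ g : Mˣ, τ m (τ (g : M) x) = 0 := by
        intro g
        rw [← Module.End.mul_apply, ← map_mul]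
        apply h1
        exact fun h => hm (isUnit_of_mul_isUnit_left h)
      rw [Finset.sum_eq_zero, Finset.sum_eq_zero]
      · intro g _; rw [map_smul, e2, smul_zero]
      · intro g _; rw [e1, zero_smul]
  have hkill : ∀ m, ¬ IsUnit m → ∀ y, τ m (T y) = 0 := by
    intro m hm y
    rw [hTa, map_sum]
    refine Finset.sum_eq_zero fun g _ => ?_
    rw [map_smul, ← Module.End.mul_apply, ← map_mul, h1, smul_zero]
    exact fun h => hm (isUnit_of_mul_isUnit_left h)
  have hcommn : ∀ (n : ℕ) m y, (T ^ n) (τ m y) = τ m ((T ^ n) y) := by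
    intro n
    induction n with
    | zero => intro m y; simp
    | succ n ih => intro m y; rw [pow_succ, Module.End.mul_apply, hcomm, ih, Module.End.mul_apply]
  obtain ⟨n, hn, hn1⟩ : ∃ n, IsCompl (LinearMap.ker (T ^ n)) (LinearMap.range (T ^ n)) ∧ 1 ≤ n := by
    obtain ⟨N, hN⟩ := Filter.eventually_atTop.1 (LinearMap.eventually_isCompl_ker_pow_range_pow T)
    exact ⟨N + 1, hN _ (Nat.le_succ N), by omega⟩
  set W : Submodule k X := LinearMap.range (T ^ n) with hW
  have hWst : ∀ m, ∀ w ∈ W, τ m w ∈ W := by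
    rintro m _ ⟨y, rfl⟩
    exact ⟨τ m y, hcommn n m y⟩
  have hWkill : ∀ m, ¬ IsUnit m → ∀ w ∈ W, τ m w = 0 := by
    rintro m hm _ ⟨y, rfl⟩
    obtain ⟨l, rfl⟩ : ∃ l, n = l + 1 := ⟨n - 1, by omega⟩
    rw [pow_succ', Module.End.mul_apply]
    exact hkill m hm _
  refine ⟨W, LinearMap.ker (T ^ n), hn.symm, ?_, hWst, ?_, hWkill⟩
  · have hpow : ∀ l : ℕ, (T ^ l) x = c ^ l • x := by
      intro l
      induction l with
      | zero => simp
      | succ l ih => rw [pow_succ', Module.End.mul_apply, ih, map_smul, hTx, smul_smul, pow_succ]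
    have hxW : x ∈ W := by
      refine ⟨(c ^ n)⁻¹ • x, ?_⟩
      rw [map_smul, hpow, smul_smul, inv_mul_cancel₀ (pow_ne_zero _ hc), one_smul]
    exact ⟨⟨⟨x, hxW⟩, 0, fun h => hx (congrArg Subtype.val h)⟩⟩
  · intro m w hw
    rw [LinearMap.mem_ker, hcommn, LinearMap.mem_ker.1 hw, map_zero]

end Key

section Tensor

variable {k : Type u} [Field k] {V : Type v} [AddCommGroup V] [Module k V]
variable {J κ : Type*}

/-- The multilinear map filling the last block of variables. -/
noncomputable def fillMap (a : J → V) (c : κ → V) :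
    MultilinearMap k (fun _ : Option κ => V) (⨂[k] _ : J ⊕ (κ ⊕ Option κ), V) :=
  MultilinearMap.currySum (N := fun _ : κ ⊕ Option κ => V)
    (MultilinearMap.currySum (N := fun _ : J ⊕ (κ ⊕ Option κ) => V)
      (PiTensorProduct.tprod k) a) c

lemma fillMap_apply (a : J → V) (c : κ → V) (y : Option κ → V) :
    fillMap (k := k) a c y = PiTensorProduct.tprod k (Sum.elim a (Sum.elim c y)) := by
  simp only [fillMap, MultilinearMap.currySum_apply]
  congr 1

variable [Fintype κ] [DecidableEq κ]

/-- The tensor with an alternating last block. -/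
noncomputable def altTensor (a : J → V) (c : κ → V) (y : Option κ → V) :
    ⨂[k] _ : J ⊕ (κ ⊕ Option κ), V :=
  MultilinearMap.alternatization (fillMap a c) y

lemma altTensor_eq (a : J → V) (c : κ → V) (y : Option κ → V) :
    altTensor (k := k) a c y = ∑ σ : Equiv.Perm (Option κ), (Equiv.Perm.sign σ : ℤ) •
      PiTensorProduct.tprod k (Sum.elim a (Sum.elim c (fun o => y (σ o)))) := by
  rw [altTensor, MultilinearMap.alternatization_apply]
  refine Finset.sum_congr rfl fun σ _ => ?_
  rw [MultilinearMap.domDomCongr_apply, fillMap_apply]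
  rfl

lemma map_altTensor (T : V →ₗ[k] V) (a : J → V) (c : κ → V) (y : Option κ → V) :
    PiTensorProduct.map (fun _ => T) (altTensor (k := k) a c y) =
      altTensor (fun i => T (a i)) (fun i => T (c i)) (fun o => T (y o)) := by
  rw [altTensor_eq, altTensor_eq, map_sum]
  refine Finset.sum_congr rfl fun σ _ => ?_
  rw [map_zsmul, PiTensorProduct.map_tprod]
  congr 2
  funext i
  rcases i with i | i | i <;> rfl

lemma altTensor_dep (a : J → V) (c : κ → V) (y : Option κ → V)
    (hy : ¬ LinearIndependent k y) : altTensor (k := k) a c y = 0 :=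
  AlternatingMap.map_linearDependent _ _ hy

variable [Fintype J]

/-- The functionals. -/
noncomputable def funcs (b : Basis (Option κ) k V) (f : J → V →ₗ[k] k)
    (τ : Equiv.Perm (Option κ)) : J ⊕ (κ ⊕ Option κ) → Dual k V
  | .inl i => f i
  | .inr (.inl j) => b.coord (τ (some j))
  | .inr (.inr none) => b.coord (τ none)
  | .inr (.inr (some j)) => b.coord (some j)

/-- The vectors entering the determinant. -/
def detArg (z : J ⊕ (κ ⊕ Option κ) → V) : Option κ → V
  | none => z (.inr (.inr none))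
  | some j => z (.inr (.inl j))

/-- The functional on the tensor power. -/
noncomputable def bigFunc (b : Basis (Option κ) k V) (f : J → V →ₗ[k] k) :
    Dual k (⨂[k] _ : J ⊕ (κ ⊕ Option κ), V) :=
  ∑ τ : Equiv.Perm (Option κ), (Equiv.Perm.sign τ : ℤ) •
    PiTensorProduct.dualDistrib (PiTensorProduct.tprod k (funcs b f τ))

lemma bigFunc_tprod (b : Basis (Option κ) k V) (f : J → V →ₗ[k] k)
    (z : J ⊕ (κ ⊕ Option κ) → V) :
    bigFunc b f (PiTensorProduct.tprod k z) = (∏ i, f i (z (.inl i))) *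
      ((∏ j, b.coord (some j) (z (.inr (.inr (some j))))) * b.det (detArg z)) := by
  rw [bigFunc, LinearMap.sum_apply]
  simp only [LinearMap.smul_apply, PiTensorProduct.dualDistrib_apply]
  rw [Basis.det_apply, Matrix.det_apply, Finset.mul_sum, Finset.mul_sum]
  refine Finset.sum_congr rfl fun τ _ => ?_
  simp only [Fintype.prod_sum_type, Fintype.prod_option, funcs, Basis.toMatrix_apply, detArg,
    Basis.coord_apply]
  simp only [Units.smul_def, zsmul_eq_mul]
  ring

lemma bigFunc_map (b : Basis (Option κ) k V) (f : J → V →ₗ[k] k) (T : V →ₗ[k] V)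
    (hT : LinearMap.det T = 0) (x : ⨂[k] _ : J ⊕ (κ ⊕ Option κ), V) :
    bigFunc b f (PiTensorProduct.map (fun _ => T) x) = 0 := by
  have h : (bigFunc b f) ∘ₗ (PiTensorProduct.map (fun _ => T)) = 0 := by
    apply PiTensorProduct.ext
    ext z
    simp only [LinearMap.compMultilinearMap_apply, LinearMap.comp_apply,
      PiTensorProduct.map_tprod, bigFunc_tprod, LinearMap.zero_apply]
    have : detArg (fun i => T (z i)) = T ∘ detArg z := by
      funext o
      rcases o with _ | o <;> rfl
    rw [this, Basis.det_comp, hT]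
    simp
  exact LinearMap.congr_fun h x

lemma bigFunc_altTensor_zero (b : Basis (Option κ) k V) (f : J → V →ₗ[k] k)
    (a : J → V) (c : κ → V) (y : Option κ → V) (i : J) (hi : f i (a i) = 0) :
    bigFunc b f (altTensor a c y) = 0 := by
  rw [altTensor_eq, map_sum]
  refine Finset.sum_eq_zero fun σ _ => ?_
  rw [map_zsmul, bigFunc_tprod, Finset.prod_eq_zero (Finset.mem_univ i), zero_mul, smul_zero]
  exact hi

lemma bigFunc_altTensor_one (b : Basis (Option κ) k V) (f : J → V →ₗ[k] k)
    (a : J → V) (ha : ∀ i, f i (a i) = 1) :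
    bigFunc b f (altTensor a (fun j => b (some j)) b) = 1 := by
  rw [altTensor_eq, map_sum, Finset.sum_eq_single 1]
  · rw [map_zsmul, bigFunc_tprod]
    have : detArg (Sum.elim a (Sum.elim (fun j => b (some j))
        fun o => b ((1 : Equiv.Perm (Option κ)) o))) = b := by
      funext o
      rcases o with _ | o <;> rfl
    rw [this, Basis.det_self]
    simp [ha]
  · intro σ _ hσ
    have hex : ∃ j, σ (some j) ≠ some j := by
      by_contra hcon
      push Not at hcon
      apply hσ
      ext o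
      rcases o with _ | o
      · have : σ none = none := by
          rcases ho : σ none with _ | l
          · rfl
          · have h2 : σ (some l) = σ none := by rw [hcon l, ho]
            exact absurd (σ.injective h2) (by simp)
        rw [this]; rfl
      · rw [hcon o]; rfl
    obtain ⟨j, hj⟩ := hex
    have hz : ∏ j, b.coord (some j) (Sum.elim a (Sum.elim (fun j => b (some j))
        fun o => b (σ o)) (.inr (.inr (some j)))) = 0 := by
      refine Finset.prod_eq_zero (Finset.mem_univ j) ?_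
      rw [Sum.elim_inr, Sum.elim_inr, Basis.coord_apply, Basis.repr_self]
      exact Finsupp.single_eq_of_ne (fun h => hj h.symm)
    rw [map_zsmul, bigFunc_tprod, hz]
    simp
  · intro h; exact absurd (Finset.mem_univ _) h

end Tensor

section Main

variable {k : Type u} [Field k] {V : Type v} [AddCommGroup V] [Module k V]

/-- A non-scalar operator moves some vector off its line, detected by a functional. -/
lemma exists_func [Nontrivial V] (T : V →ₗ[k] V) (hT : ¬ ∃ c : k, T = c • LinearMap.id) :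
    ∃ (x : V) (f : V →ₗ[k] k), f x = 1 ∧ f (T x) = 0 := by
  have h1 : ¬ ∀ x : V, ¬ LinearIndependent k ![x, T x] := by
    intro h
    exact hT (LinearMap.exists_eq_smul_id_of_forall_notLinearIndependent h)
  push Not at h1
  obtain ⟨x, hx⟩ := h1
  have hx2 : x ∉ Submodule.span k {T x} := by
    intro hmem
    obtain ⟨c, hc⟩ := Submodule.mem_span_singleton.1 hmem
    rw [LinearIndependent.pair_iff] at hx
    have := hx 1 (-c) (by rw [one_smul, neg_smul, hc, add_neg_cancel])
    exact one_ne_zero this.1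
  obtain ⟨f, hf, hle⟩ := Submodule.exists_le_ker_of_notMem hx2
  refine ⟨x, (f x)⁻¹ • f, by simp [hf], ?_⟩
  have : f (T x) = 0 := hle (Submodule.mem_span_singleton_self _)
  simp [this]

/-- Some vector and functional pair to one. -/
lemma exists_func' [Nontrivial V] : ∃ (x : V) (f : V →ₗ[k] k), f x = 1 := by
  obtain ⟨x, hx⟩ := exists_ne (0 : V)
  have hx2 : x ∉ (⊥ : Submodule k V) := by simpa using hx
  obtain ⟨f, hf, -⟩ := Submodule.exists_le_ker_of_notMem hx2
  exact ⟨x, (f x)⁻¹ • f, by simp [hf]⟩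

variable {M : Type w} [Monoid M]

/-- non-units have determinant zero -/
lemma det_eq_zero [Finite M] [FiniteDimensional k V] (ρ : Representation k M V)
    (hρ : ∀ m, ρ m = LinearMap.id → m = 1) {m : M} (hm : ¬ IsUnit m) :
    LinearMap.det (ρ m) = 0 := by
  by_contra hdet
  have hu : IsUnit (ρ m) := (LinearMap.isUnit_iff_isUnit_det _).2 (isUnit_iff_ne_zero.2 hdet)
  obtain ⟨a, b, hab, he⟩ := Finite.exists_ne_map_eq_of_infinite (fun n : ℕ => m ^ n)
  wlog hlt : a < b generalizing a b
  · exact this b a hab.symm he.symm (lt_of_le_of_ne (not_lt.1 hlt) hab.symm)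
  obtain ⟨c, rfl⟩ : ∃ c, b = a + (c + 1) := ⟨b - a - 1, by omega⟩
  have he' : m ^ a = m ^ (a + (c + 1)) := he
  have h1 : ρ (m ^ (c + 1)) = 1 := by
    have h2 : ρ m ^ a * ρ m ^ (c + 1) = ρ m ^ a * 1 := by
      rw [← pow_add, ← map_pow, ← he', map_pow, mul_one]
    have h3 := (hu.pow a).mul_left_cancel h2
    rw [map_pow, h3]
  have h2 := hρ _ h1
  apply hm
  rw [pow_succ'] at h2
  exact isUnit_of_mul_isUnit_left (h2 ▸ isUnit_one)

/-- Units acting as scalars. -/
def scalarUnits (ρ : Representation k M V) : Subgroup Mˣ where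
  carrier := {g | ∃ c : k, ρ (g : M) = c • LinearMap.id}
  one_mem' := ⟨1, by rw [Units.val_one, map_one, one_smul]; rfl⟩
  mul_mem' := by
    rintro a b ⟨c, hc⟩ ⟨d, hd⟩
    refine ⟨c * d, ?_⟩
    rw [Units.val_mul, map_mul, hc, hd]
    refine LinearMap.ext fun x => ?_
    simp [mul_smul, smul_comm d c x]
  inv_mem' := by
    rintro a ⟨c, hc⟩
    refine ⟨c⁻¹, ?_⟩
    refine LinearMap.ext fun x => ?_
    have h1 : ρ ((a⁻¹ : Mˣ) : M) (ρ (a : M) x) = x := by
      rw [← Module.End.mul_apply, ← map_mul, Units.inv_mul, map_one]; rfl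
    rw [hc] at h1
    simp only [LinearMap.smul_apply, LinearMap.id_apply, map_smul] at h1
    by_cases hc0 : c = 0
    · rw [hc0, zero_smul] at h1
      rw [← h1]; simp
    · simp only [LinearMap.smul_apply, LinearMap.id_apply]
      rw [eq_inv_smul_iff₀ hc0]
      exact h1

lemma inv_scalar [Nontrivial V] (ρ : Representation k M V) (g : Mˣ) (c : k)
    (hc : ρ (g : M) = c • LinearMap.id) :
    c ≠ 0 ∧ ρ ((g⁻¹ : Mˣ) : M) = c⁻¹ • LinearMap.id := by
  have h1 : ∀ x, ρ ((g⁻¹ : Mˣ) : M) (ρ (g : M) x) = x := by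
    intro x
    rw [← Module.End.mul_apply, ← map_mul, Units.inv_mul, map_one]; rfl
  simp only [hc, LinearMap.smul_apply, LinearMap.id_apply, map_smul] at h1
  have hc0 : c ≠ 0 := by
    rintro rfl
    obtain ⟨x, hx⟩ := exists_ne (0 : V)
    exact hx (by rw [← h1 x, zero_smul])
  refine ⟨hc0, LinearMap.ext fun x => ?_⟩
  simp only [LinearMap.smul_apply, LinearMap.id_apply]
  rw [eq_inv_smul_iff₀ hc0]
  exact h1 x

lemma card_scalarUnits [Finite M] [Nontrivial V] (ρ : Representation k M V)
    (hρ : ∀ m, ρ m = LinearMap.id → m = 1) :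
    ((Nat.card (scalarUnits ρ) : ℕ) : k) ≠ 0 := by
  intro h0
  obtain ⟨p, hp⟩ := CharP.exists k
  have hdvd : p ∣ Nat.card (scalarUnits ρ) := (CharP.cast_eq_zero_iff k p _).1 h0
  have hpos : 0 < Nat.card (scalarUnits ρ) := Nat.card_pos
  have hp0 : p ≠ 0 := by
    rintro rfl
    rw [zero_dvd_iff] at hdvd
    omega
  have hpp : p.Prime := (CharP.char_is_prime_or_zero k p).resolve_right hp0
  have : Fact p.Prime := ⟨hpp⟩
  obtain ⟨z, hz⟩ := exists_prime_orderOf_dvd_card' (G := scalarUnits ρ) p hdvd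
  obtain ⟨c, hc⟩ := z.2
  have hzp : z ^ p = 1 := by rw [← hz]; exact pow_orderOf_eq_one z
  have hzp' : ((z : Mˣ) : M) ^ p = 1 := by
    have := congrArg (fun y : scalarUnits ρ => ((y : Mˣ) : M)) hzp
    simpa using this
  obtain ⟨x, hx⟩ := exists_ne (0 : V)
  have hcp : c ^ p = 1 := by
    have h1 : ρ (((z : Mˣ) : M) ^ p) = 1 := by rw [hzp', map_one]
    rw [map_pow, hc] at h1
    have h2 : ((c • LinearMap.id : V →ₗ[k] V) ^ p) = c ^ p • LinearMap.id := by
      have : (c • LinearMap.id : V →ₗ[k] V) = c • (1 : Module.End k V) := rfl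
      rw [this, smul_pow, one_pow]
      rfl
    rw [h2] at h1
    have h3 := LinearMap.congr_fun h1 x
    simp only [LinearMap.smul_apply, LinearMap.id_apply, Module.End.one_apply] at h3
    have h4 : (c ^ p - 1) • x = 0 := by rw [sub_smul, h3, one_smul, sub_self]
    rcases smul_eq_zero.1 h4 with h5 | h5
    · exact sub_eq_zero.1 h5
    · exact absurd h5 hx
  have hc1 : c = 1 := by
    have : (c - 1) ^ p = 0 := by rw [sub_pow_char, hcp, one_pow, sub_self]
    exact sub_eq_zero.1 (pow_eq_zero_iff hp0 |>.1 this)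
  have hz1 : ((z : Mˣ) : M) = 1 := hρ _ (by rw [hc, hc1, one_smul])
  have hz2 : z = 1 := by
    apply Subtype.ext
    apply Units.ext
    simpa using hz1
  rw [hz2, orderOf_one] at hz
  exact hpp.one_lt.ne hz

lemma not_linInd_of_det {ι : Type*} [Fintype ι] [DecidableEq ι] (b : Basis ι k V)
    (T : V →ₗ[k] V) (hT : LinearMap.det T = 0) : ¬ LinearIndependent k (fun o => T (b o)) := by
  intro h
  have hcard : Fintype.card ι = finrank k V := (finrank_eq_card_basis b).symm
  rcases isEmpty_or_nonempty ι with hι | hι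
  · have hsub : Subsingleton V := by
      have : finrank k V = 0 := by rw [← hcard]; exact Fintype.card_eq_zero
      have hfin : FiniteDimensional k V := Module.Finite.of_basis b
      exact finrank_zero_iff.1 this
    have : T = LinearMap.id := LinearMap.ext fun x => Subsingleton.elim _ _
    rw [this, LinearMap.det_id] at hT
    exact one_ne_zero hT
  · have hspan := h.span_eq_top_of_card_eq_finrank hcard
    have h2 := (Basis.is_basis_iff_det b).1 ⟨h, hspan⟩
    have h3 : b.det (T ∘ b) = 0 := by rw [Basis.det_comp, hT, zero_mul]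
    have h4 : (fun o => T (b o)) = T ∘ b := rfl
    rw [h4, h3] at h2
    exact not_isUnit_zero h2

lemma map_scalar {ι : Type*} [Fintype ι] (c : k) (x : ⨂[k] _ : ι, V) :
    PiTensorProduct.map (fun _ => (c • LinearMap.id : V →ₗ[k] V)) x =
      c ^ Fintype.card ι • x := by
  have h : PiTensorProduct.map (fun _ : ι => (c • LinearMap.id : V →ₗ[k] V)) =
      c ^ Fintype.card ι • LinearMap.id := by
    apply PiTensorProduct.ext
    ext z
    simp only [LinearMap.compMultilinearMap_apply, PiTensorProduct.map_tprod,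
      LinearMap.smul_apply, LinearMap.id_apply]
    rw [MultilinearMap.map_smul_univ]
    simp
  rw [h]
  rfl

end Main

/-- The main construction, for any representation `τ` on the tensor power that is diagonal. -/
theorem main {M : Type w} [Monoid M] [Finite M] {k : Type u} [Field k] {V : Type v}
    [AddCommGroup V] [Module k V] [FiniteDimensional k V] [Nontrivial V]
    (ρ : Representation k M V) (hρ : ∀ m : M, ρ m = LinearMap.id → m = 1)
    (n : ℕ) (hn : Nat.card Mˣ + 2 * finrank k V ≤ n + 1)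
    (τ : Representation k M (⨂[k]^n V)) (hτ : ∀ m, τ m = PiTensorProduct.map (fun _ => ρ m)) :
    ∃ W C : Submodule k (⨂[k]^n V), IsCompl W C ∧ Nontrivial W ∧ (∀ m, ∀ w ∈ W, τ m w ∈ W) ∧
      (∀ m, ∀ w ∈ C, τ m w ∈ C) ∧ (∀ m, ¬ IsUnit m → ∀ w ∈ W, τ m w = 0) := by
  classical
  have := Fintype.ofFinite Mˣ
  have hd : 0 < finrank k V := finrank_pos
  obtain ⟨e, he⟩ : ∃ e, finrank k V = e + 1 := ⟨finrank k V - 1, by omega⟩
  have hG : Nat.card Mˣ = Fintype.card Mˣ := Nat.card_eq_fintype_card
  obtain ⟨r, hr⟩ : ∃ r, n = Fintype.card Mˣ + r + (e + (e + 1)) :=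
    ⟨n - (Fintype.card Mˣ + (e + (e + 1))), by omega⟩
  let b : Basis (Option (Fin e)) k V :=
    (finBasisOfFinrankEq k V he).reindex (finSuccEquiv e)
  let J := Mˣ ⊕ Fin r
  let ι := J ⊕ (Fin e ⊕ Option (Fin e))
  have hcard : Fintype.card ι = n := by
    simp only [ι, J, Fintype.card_sum, Fintype.card_fin, Fintype.card_option]
    omega
  let ε : ι ≃ Fin n := Fintype.equivFinOfCardEq hcard
  -- choice of vectors and functionals
  have hch : ∀ j : J, ∃ (x : V) (f : V →ₗ[k] k), f x = 1 ∧
      ∀ g : Mˣ, j = Sum.inl g → g ∉ scalarUnits ρ → f (ρ ((g⁻¹ : Mˣ) : M) x) = 0 := by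
    rintro (g | i)
    · by_cases hg : g ∈ scalarUnits ρ
      · obtain ⟨x, f, hf⟩ := exists_func' (k := k) (V := V)
        refine ⟨x, f, hf, ?_⟩
        rintro g' hg' hn'
        rw [← Sum.inl.inj hg'] at hn'
        exact absurd hg hn'
      · have : ¬ ∃ c : k, ρ ((g⁻¹ : Mˣ) : M) = c • LinearMap.id := by
          intro h
          apply hg
          have h' : g⁻¹ ∈ scalarUnits ρ := h
          simpa using (scalarUnits ρ).inv_mem h'
        obtain ⟨x, f, hf, hf0⟩ := exists_func _ this
        refine ⟨x, f, hf, ?_⟩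
        rintro g' hg' -
        rw [← Sum.inl.inj hg']
        exact hf0
    · obtain ⟨x, f, hf⟩ := exists_func' (k := k) (V := V)
      refine ⟨x, f, hf, ?_⟩
      rintro g' hg'
      exact absurd hg' (by simp)
  choose a f hfa hfg using hch
  let R : (⨂[k] _ : ι, V) ≃ₗ[k] ⨂[k]^n V := PiTensorProduct.reindex k (fun _ => V) ε
  have hR : ∀ m y, τ m (R y) = R (PiTensorProduct.map (fun _ => ρ m) y) := by
    intro m y
    rw [hτ]
    exact PiTensorProduct.map_reindex (fun _ => ρ m) ε y
  let x : ⨂[k] _ : ι, V := altTensor a (fun j => b (some j)) b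
  let F : (⨂[k]^n V) →ₗ[k] k := bigFunc b f ∘ₗ R.symm.toLinearMap
  have hFR : ∀ y, F (R y) = bigFunc b f y := by
    intro y
    simp [F]
  have hFx : bigFunc b f x = 1 := bigFunc_altTensor_one b f a hfa
  have h1 : ∀ m, ¬ IsUnit m → τ m (R x) = 0 := by
    intro m hm
    rw [hR, map_altTensor, altTensor_dep, map_zero]
    exact not_linInd_of_det b _ (det_eq_zero ρ hρ hm)
  have h2 : ∀ m, ¬ IsUnit m → ∀ y, F (τ m y) = 0 := by
    intro m hm y
    obtain ⟨y', rfl⟩ := R.surjective y
    rw [hR, hFR, bigFunc_map _ _ _ (det_eq_zero ρ hρ hm)]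
  have hx0 : R x ≠ 0 := by
    intro h0
    have : x = 0 := R.map_eq_zero_iff.1 h0
    rw [this, map_zero] at hFx
    exact zero_ne_one hFx
  have h3 : ∑ᶠ g : Mˣ, F (τ ((g⁻¹ : Mˣ) : M) (R x)) •
      τ (g : M) (R x) = ((Nat.card (scalarUnits ρ) : ℕ) : k) • R x := by
    rw [finsum_eq_sum_of_fintype]
    have hterm : ∀ g : Mˣ, F (τ ((g⁻¹ : Mˣ) : M) (R x)) •
        τ (g : M) (R x) = if g ∈ scalarUnits ρ then R x else 0 := by
      intro g
      split_ifs with hg
      · obtain ⟨c, hc⟩ := hg
        obtain ⟨hc0, hci⟩ := inv_scalar ρ g c hc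
        rw [hR, hR, hFR, hc, hci, map_scalar, map_scalar, map_smul, map_smul, hFx, smul_smul]
        rw [smul_eq_mul, mul_one, inv_pow, inv_mul_cancel₀ (pow_ne_zero _ hc0), one_smul]
      · rw [hR, hFR, map_altTensor, bigFunc_altTensor_zero (i := Sum.inl g), zero_smul]
        exact hfg (Sum.inl g) g rfl hg
    rw [Finset.sum_congr rfl fun g _ => hterm g, Finset.sum_ite, Finset.sum_const_zero, add_zero,
      Finset.sum_const]
    rw [← Nat.cast_smul_eq_nsmul k]
    congr 2
    rw [Nat.card_eq_fintype_card, Fintype.card_subtype]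
  exact key τ (R x) F h1 h2 ((Nat.card (scalarUnits ρ) : ℕ) : k) (card_scalarUnits ρ hρ) hx0 h3

end Q1.MonoidTensor
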